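import Pool.Agent.L7h83.GK.Stm

set_option autoImplicit false
set_option linter.unusedSectionVars false

/-!
# Project GK, part ST3: three half-edges with the same value
-/

namespace Pool.Agent.L7h76.GK

open Finset
open Pool.Agent.H126R2.CDC (T3 IsFl excess MGraph lab)
open Pool.Agent.Helper879.ECD (F2)
open Pool.Agent.L7h83.GK

section

variable {W E : Type} [Fintype W] [DecidableEq W] [Fintype E] [DecidableEq E]

/-- sums over the half-edges of a glued graph -/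
theorem gsum {M N X : Type} [Fintype M] [DecidableEq M] [Fintype N] [DecidableEq N]
    [AddCommMonoid X] (u : E × Bool → W ⊕ M) (n : N × Bool → W ⊕ M) (p : W ⊕ M) (F : E ⊕ N → X) :
    ∑ h : (E ⊕ N) × Bool, (if glue u n h = p then F h.1 else 0) =
      ∑ h : E × Bool, (if u h = p then F (Sum.inl h.1) else 0) +
        ∑ k : N × Bool, (if n k = p then F (Sum.inr k.1) else 0) := by
  rw [Fintype.sum_prod_type, Fintype.sum_sum_type, Fintype.sum_prod_type, Fintype.sum_prod_type]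
  rfl

/-- the old edges in the new graph -/
def uu (v : E × Bool → W) (h1 h2 h3 : E × Bool) (h : E × Bool) : W ⊕ Fin 3 :=
  if h = h1 then Sum.inr 0 else if h = h2 then Sum.inr 1 else if h = h3 then Sum.inr 2 else
    Sum.inl (v h)

/-- the new edges -/
def nn (w0 : W) : Fin 4 × Bool → W ⊕ Fin 3
  | (0, false) => Sum.inr 0
  | (0, true) => Sum.inr 1
  | (1, false) => Sum.inr 1
  | (1, true) => Sum.inr 2
  | (2, false) => Sum.inr 0
  | (2, true) => Sum.inl w0
  | (3, false) => Sum.inr 2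
  | (3, true) => Sum.inl w0

/-- the three half-edges -/
def hm (h1 h2 h3 : E × Bool) : Fin 3 → E × Bool
  | 0 => h1
  | 1 => h2
  | 2 => h3

theorem uu_iff (v : E × Bool → W) {h1 h2 h3 : E × Bool} (h12 : h1 ≠ h2) (h13 : h1 ≠ h3)
    (h23 : h2 ≠ h3) (h : E × Bool) (m : Fin 3) :
    uu v h1 h2 h3 h = Sum.inr m ↔ h = hm h1 h2 h3 m := by
  unfold uu
  by_cases c1 : h = h1
  · subst c1
    rw [if_pos rfl]
    fin_cases m
    · simp [hm]
    · simp [hm, h12]
    · simp [hm, h13]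
  rw [if_neg c1]
  by_cases c2 : h = h2
  · subst c2
    rw [if_pos rfl]
    fin_cases m
    · simp [hm, c1]
    · simp [hm]
    · simp [hm, h23]
  rw [if_neg c2]
  by_cases c3 : h = h3
  · subst c3
    rw [if_pos rfl]
    fin_cases m
    · simp [hm, c1]
    · simp [hm, c2]
    · simp [hm]
  rw [if_neg c3]
  fin_cases m
  · simp [hm, c1]
  · simp [hm, c2]
  · simp [hm, c3]

theorem uu_of_ne (v : E × Bool → W) {h1 h2 h3 : E × Bool} {w0 : W} (e1 : v h1 = w0)
    (e2 : v h2 = w0) (e3 : v h3 = w0) {h : E × Bool} (hw : v h ≠ w0) :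
    uu v h1 h2 h3 h = Sum.inl (v h) := by
  unfold uu
  rw [if_neg, if_neg, if_neg]
  · rintro rfl; exact hw e3
  · rintro rfl; exact hw e2
  · rintro rfl; exact hw e1

/-- each half-edge at `w0` has the same end as a new edge -/
theorem uu_new (v : E × Bool → W) (h1 h2 h3 : E × Bool) {w0 : W} {h : E × Bool} (hw : v h = w0) :
    ∃ k s, nn w0 (k, s) = uu v h1 h2 h3 h := by
  unfold uu
  split_ifs
  · exact ⟨0, false, rfl⟩
  · exact ⟨0, true, rfl⟩
  · exact ⟨1, true, rfl⟩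
  · exact ⟨2, true, by rw [hw]; rfl⟩

/-- the values in the new graph -/
def va (A : Fin 3 → E → F2) (e : E) (i : Fin 3) : E ⊕ Fin 4 → F2 :=
  Sum.elim (A i) fun k => if k = 0 ∨ k = 3 then ![0, A 2 e, A 1 e + A 2 e] i else
    A i e + ![0, A 2 e, A 1 e + A 2 e] i

theorem nsum {X : Type} [AddCommMonoid X] (w0 : W) (F : Fin 4 → X) :
    (∑ k : Fin 4 × Bool, (if nn w0 k = Sum.inr 0 then F k.1 else 0) = F 0 + F 2) ∧
    (∑ k : Fin 4 × Bool, (if nn w0 k = Sum.inr 1 then F k.1 else 0) = F 0 + F 1) ∧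
    (∑ k : Fin 4 × Bool, (if nn w0 k = Sum.inr 2 then F k.1 else 0) = F 1 + F 3) ∧
    (∑ k : Fin 4 × Bool, (if nn w0 k = Sum.inl w0 then F k.1 else 0) = F 2 + F 3) := by
  refine ⟨?_, ?_, ?_, ?_⟩ <;> rw [Fintype.sum_prod_type] <;> simp [Fin.sum_univ_four, nn]

theorem usum {X : Type} [AddCommMonoid X] (v : E × Bool → W) {h1 h2 h3 : E × Bool} (h12 : h1 ≠ h2)
    (h13 : h1 ≠ h3) (h23 : h2 ≠ h3) (m : Fin 3) (F : E → X) :
    ∑ h : E × Bool, (if uu v h1 h2 h3 h = Sum.inr m then F h.1 else 0) = F (hm h1 h2 h3 m).1 := by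
  have h : ∀ h ∈ (univ : Finset (E × Bool)), (if uu v h1 h2 h3 h = Sum.inr m then F h.1 else 0) =
      if h = hm h1 h2 h3 m then F (hm h1 h2 h3 m).1 else 0 := by
    intro h _
    by_cases c : h = hm h1 h2 h3 m
    · rw [if_pos ((uu_iff v h12 h13 h23 h m).2 c), if_pos c, c]
    · rw [if_neg fun c' => c ((uu_iff v h12 h13 h23 h m).1 c'), if_neg c]
  rw [Finset.sum_congr rfl h, Finset.sum_ite_eq']
  simp

theorem f2a : ∀ t x : F2, t + (x + (t + x)) = 0 := by decide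

theorem f2b : ∀ t x : F2, t + (t + x + x) = 0 := by decide

theorem f2c : ∀ a b : F2, a ≠ 0 ∨ b ≠ 0 → b ≠ 0 ∨ a + b ≠ 0 := by decide

theorem f2d : ∀ a b : F2, a ≠ 0 ∨ b ≠ 0 → a + b ≠ 0 ∨ b + (a + b) ≠ 0 := by decide

theorem va_zero (A : Fin 3 → E → F2) {e : E} (h : A 0 e = 0) (k : Fin 4) :
    va A e 0 (Sum.inr k) = 0 := by
  simp [va, h]

theorem va_ne (A : Fin 3 → E → F2) {e : E} (h : A 1 e ≠ 0 ∨ A 2 e ≠ 0) (k : Fin 4) :
    va A e 1 (Sum.inr k) ≠ 0 ∨ va A e 2 (Sum.inr k) ≠ 0 := by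
  by_cases c : k = 0 ∨ k = 3
  · have := f2c _ _ h
    simpa [va, c] using this
  · have := f2d _ _ h
    simpa [va, c] using this

section chains

variable {v : E × Bool → W} {A : Fin 3 → E → F2} {h1 h2 h3 : E × Bool} {w0 : W}

theorem new_rtg (h0 : A 0 h1.1 = 0) (k : Fin 4) :
    Relation.ReflTransGen (Stp (glue (uu v h1 h2 h3) (nn w0)) (va A h1.1 0))
      (Sum.inr 0) (Sum.inr k) ∧
    Relation.ReflTransGen (Stp (glue (uu v h1 h2 h3) (nn w0)) (va A h1.1 0))
      (Sum.inr k) (Sum.inr 0) := by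
  have z := fun k => va_zero A h0 k
  have s01 : Stp (glue (uu v h1 h2 h3) (nn w0)) (va A h1.1 0) (Sum.inr 0) (Sum.inr 1) :=
    ⟨z 1, true, false, rfl⟩
  have s10 : Stp (glue (uu v h1 h2 h3) (nn w0)) (va A h1.1 0) (Sum.inr 1) (Sum.inr 0) :=
    ⟨z 0, false, true, rfl⟩
  have s02 : Stp (glue (uu v h1 h2 h3) (nn w0)) (va A h1.1 0) (Sum.inr 0) (Sum.inr 2) :=
    ⟨z 2, false, false, rfl⟩
  have s20 : Stp (glue (uu v h1 h2 h3) (nn w0)) (va A h1.1 0) (Sum.inr 2) (Sum.inr 0) :=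
    ⟨z 0, false, false, rfl⟩
  have s13 : Stp (glue (uu v h1 h2 h3) (nn w0)) (va A h1.1 0) (Sum.inr 1) (Sum.inr 3) :=
    ⟨z 3, true, false, rfl⟩
  have s31 : Stp (glue (uu v h1 h2 h3) (nn w0)) (va A h1.1 0) (Sum.inr 3) (Sum.inr 1) :=
    ⟨z 1, false, true, rfl⟩
  fin_cases k
  · exact ⟨.refl, .refl⟩
  · exact ⟨.single s01, .single s10⟩
  · exact ⟨.single s02, .single s20⟩
  · exact ⟨.tail (.single s01) s13, .tail (.single s31) s10⟩

theorem step (h0 : A 0 h1.1 = 0) (e1 : v h1 = w0) (e2 : v h2 = w0) (e3 : v h3 = w0) {e f : E}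
    (h : Stp v (A 0) e f) :
    Relation.ReflTransGen (Stp (glue (uu v h1 h2 h3) (nn w0)) (va A h1.1 0))
      (Sum.inl e) (Sum.inl f) := by
  obtain ⟨hf, s, t, hst⟩ := h
  by_cases hw : v (e, s) = w0
  · obtain ⟨k, s', hk⟩ := uu_new v h1 h2 h3 hw
    obtain ⟨k', t', hk'⟩ := uu_new v h1 h2 h3 (hst ▸ hw : v (f, t) = w0)
    have a1 : Stp (glue (uu v h1 h2 h3) (nn w0)) (va A h1.1 0) (Sum.inl e) (Sum.inr k) :=
      ⟨va_zero A h0 k, s, s', hk.symm⟩
    have a2 : Stp (glue (uu v h1 h2 h3) (nn w0)) (va A h1.1 0) (Sum.inr k') (Sum.inl f) :=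
      ⟨hf, t', t, hk'⟩
    exact (Relation.ReflTransGen.single a1).trans ((new_rtg h0 k).2.trans
      ((new_rtg h0 k').1.trans (Relation.ReflTransGen.single a2)))
  · refine Relation.ReflTransGen.single ⟨hf, s, t, ?_⟩
    show uu v h1 h2 h3 (e, s) = uu v h1 h2 h3 (f, t)
    rw [uu_of_ne v e1 e2 e3 hw, uu_of_ne v e1 e2 e3 (by rw [← hst]; exact hw), hst]

end chains

theorem dg_new (v : E × Bool → W) {h1 h2 h3 : E × Bool} (h12 : h1 ≠ h2)
    (h13 : h1 ≠ h3) (h23 : h2 ≠ h3) (w0 : W) (m : Fin 3) :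
    dg (glue (uu v h1 h2 h3) (nn w0)) (Sum.inr m) ≤ 3 := by
  unfold dg
  rw [Finset.card_filter, gsum (X := ℕ) _ _ _ (fun _ => 1),
    usum (X := ℕ) v h12 h13 h23 m (fun _ => 1)]
  obtain ⟨n0, n1, n2, -⟩ := nsum (X := ℕ) w0 (fun _ => 1)
  fin_cases m
  · have h : (∑ k : Fin 4 × Bool, (if nn w0 k = Sum.inr 0 then 1 else 0 : ℕ)) ≤ 2 := n0.le
    exact Nat.add_le_add_left h 1
  · have h : (∑ k : Fin 4 × Bool, (if nn w0 k = Sum.inr 1 then 1 else 0 : ℕ)) ≤ 2 := n1.le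
    exact Nat.add_le_add_left h 1
  · have h : (∑ k : Fin 4 × Bool, (if nn w0 k = Sum.inr 2 then 1 else 0 : ℕ)) ≤ 2 := n2.le
    exact Nat.add_le_add_left h 1

theorem dg_old (v : E × Bool → W) {h1 h2 h3 : E × Bool} (h12 : h1 ≠ h2)
    (h13 : h1 ≠ h3) (h23 : h2 ≠ h3) {w0 : W} (e1 : v h1 = w0) (e2 : v h2 = w0) (e3 : v h3 = w0) :
    dg (glue (uu v h1 h2 h3) (nn w0)) (Sum.inl w0) < dg v w0 := by
  unfold dg
  rw [Finset.card_filter, Finset.card_filter, gsum (X := ℕ) _ _ _ (fun _ => 1)]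
  obtain ⟨-, -, -, n3⟩ := nsum (X := ℕ) w0 (fun _ => 1)
  rw [n3]
  have h : ∀ h ∈ (univ : Finset (E × Bool)), (if v h = w0 then 1 else 0 : ℕ) =
      (if uu v h1 h2 h3 h = Sum.inl w0 then 1 else 0) + ((if h = h1 then 1 else 0) +
        ((if h = h2 then 1 else 0) + (if h = h3 then 1 else 0))) := by
    intro h _
    unfold uu
    by_cases c1 : h = h1
    · subst c1
      simp [e1, h12, h13]
    · by_cases c2 : h = h2
      · subst c2
        simp [e2, c1, h23]
      · by_cases c3 : h = h3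
        · subst c3
          simp [e3, c1, c2]
        · simp [c1, c2, c3]
  rw [Finset.sum_congr rfl h, Finset.sum_add_distrib, Finset.sum_add_distrib,
    Finset.sum_add_distrib]
  simp

end

theorem s_ST3 (hE : S_EXP) : S_ST3 := by
  intro W E _ _ _ _ v A R hyp h1 h2 h3 h12 h13 h23 e12 e13 hdeg h0 hval
  obtain ⟨hfl, hnz, hR, hch⟩ := hyp
  obtain ⟨x1, x2, x3⟩ := hE W E (Fin 3) (Fin 4) v (v h1) (uu v h1 h2 h3) (nn (v h1))
    (by
      intro h
      unfold uu
      split_ifs with c1 c2 c3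
      · rw [c1]; rfl
      · rw [c2]; exact e12
      · rw [c3]; exact e13
      · rfl)
    (by
      rintro ⟨k, s⟩
      fin_cases k <;> cases s <;> rfl)
  refine ⟨W ⊕ Fin 3, E ⊕ Fin 4, inferInstance, inferInstance, inferInstance, inferInstance,
    glue (uu v h1 h2 h3) (nn (v h1)), va A h1.1, Sum.elim R fun _ => False,
    ⟨fun i => ?_, ?_, ?_, ?_⟩, x3 (dg_new v h12 h13 h23 _) hdeg
      (dg_old v h12 h13 h23 rfl e12.symm e13.symm), ?_⟩
  · refine x2 _ (hfl i) fun m => ?_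
    rw [gsum, usum v h12 h13 h23 m (fun e => va A h1.1 i (Sum.inl e))]
    obtain ⟨n0, n1, n2, -⟩ := nsum (v h1) (fun k => va A h1.1 i (Sum.inr k))
    have t2 := (hval i).1
    have t3 := (hval i).2
    fin_cases m
    · refine Eq.trans (congrArg _ n0) ?_
      show A i h1.1 + _ = 0
      simp only [va, Sum.elim_inr]
      simpa using f2a _ _
    · refine Eq.trans (congrArg _ n1) ?_
      show A i h2.1 + _ = 0
      simp only [va, Sum.elim_inr]
      rw [← t2]
      simpa using f2a _ _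
    · refine Eq.trans (congrArg _ n2) ?_
      show A i h3.1 + _ = 0
      simp only [va, Sum.elim_inr]
      rw [← t3]
      simpa using f2b _ _
  · rintro (e | k)
    · exact hnz e
    · right
      refine va_ne A ?_ k
      rcases hnz h1.1 with h | h
      · exact absurd h0 h
      · exact h
  · rintro (e | k) h
    · exact hR e h
    · exact h.elim
  · rintro (e | k) (f | l) he hf
    · exact Relation.ReflTransGen.lift' Sum.inl (fun a b hab => step h0 rfl e12.symm e13.symm hab) _ _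
        (hch e f he hf)
    · exact hf.elim
    · exact he.elim
    · exact he.elim
  · rintro ⟨S, P, hP, hS, hSf, hSR, hSa⟩
    exact ⟨fun e => S (Sum.inl e), P, hP, fun e => hS _, fun c => x1 _ (hSf c),
      fun e he => hSR (Sum.inl e) he, fun e he => hSa (Sum.inl e) he⟩

end Pool.Agent.L7h76.GK
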